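import Mathlib
import Pool.Agent.Q234.AH.Stm

/-!
# CHAIN (helper140, job 133)
-/

set_option autoImplicit false

noncomputable section

namespace Pool.Agent.H140.AH

open Pool.Agent.Q234.AH

theorem tprod_cons (e v : ℝ) (l : List ℝ) :
    tprod e (v :: l) = tprod e l * !![v - e, -1; 1, 0] := rfl

theorem tprod_nil (e : ℝ) : Pool.Agent.Q234.AH.tprod e [] = 1 := rfl

theorem tprod_det (e : ℝ) (l : List ℝ) : (tprod e l).det = 1 := by
  induction l with
  | nil => rw [tprod_nil, Matrix.det_one]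
  | cons v l ih => rw [tprod_cons, Matrix.det_mul, ih, Matrix.det_fin_two_of]; ring

/-- propagation by the transfer matrix -/
theorem propag (ℓ : ℕ) : ∀ (c f : ℕ → ℝ), (∀ i < ℓ, c i * f (i + 1) - f i - f (i + 2) = 0) →
    f (ℓ + 1) = (tprod 0 (List.ofFn fun i : Fin ℓ => c i)) 0 0 * f 1 +
      (tprod 0 (List.ofFn fun i : Fin ℓ => c i)) 0 1 * f 0 ∧
    f ℓ = (tprod 0 (List.ofFn fun i : Fin ℓ => c i)) 1 0 * f 1 +
      (tprod 0 (List.ofFn fun i : Fin ℓ => c i)) 1 1 * f 0 := by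
  induction ℓ with
  | zero => intro c f _; simp [tprod_nil]
  | succ ℓ ih =>
    intro c f hf
    have h := ih (fun i => c (i + 1)) (fun i => f (i + 1)) (fun i hi => hf (i + 1) (by omega))
    have h0 := hf 0 (by omega)
    have e1 : (List.ofFn fun i : Fin (ℓ + 1) => c i) =
        c 0 :: List.ofFn fun i : Fin ℓ => c (i + 1) := by
      rw [List.ofFn_succ]; simp
    rw [e1, tprod_cons]
    set T := tprod 0 (List.ofFn fun i : Fin ℓ => c (i + 1)) with hT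
    simp only [Matrix.mul_apply, Fin.sum_univ_two, Matrix.of_apply, Matrix.cons_val', Matrix.cons_val_zero,
      Matrix.cons_val_one, Matrix.cons_val_fin_one]
    obtain ⟨ha, hb⟩ := h
    have h2 : f 2 = c 0 * f 1 - f 0 := by
      have : c 0 * f (0 + 1) - f 0 - f (0 + 2) = 0 := h0
      norm_num at this; linarith
    simp only [zero_add, Nat.reduceAdd] at ha hb
    constructor
    · rw [ha, h2]; ring
    · rw [hb, h2]; ring

/-- the solution with given initial values -/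
def solp (c : ℕ → ℝ) (x y : ℝ) : ℕ → ℝ × ℝ
  | 0 => (x, y)
  | i + 1 => ((solp c x y i).2, c i * (solp c x y i).2 - (solp c x y i).1)

def sol (c : ℕ → ℝ) (x y : ℝ) (i : ℕ) : ℝ := (solp c x y i).1

theorem sol_zero (c : ℕ → ℝ) (x y : ℝ) : sol c x y 0 = x := rfl
theorem sol_one (c : ℕ → ℝ) (x y : ℝ) : sol c x y 1 = y := rfl
theorem sol_eq (c : ℕ → ℝ) (x y : ℝ) (i : ℕ) :
    c i * sol c x y (i + 1) - sol c x y i - sol c x y (i + 2) = 0 := by
  show c i * (solp c x y i).2 - (solp c x y i).1 -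
    (c i * (solp c x y i).2 - (solp c x y i).1) = 0
  ring

/-- the hypothesis of the chain lemma -/
def Low (ℓ : ℕ) (c : ℕ → ℝ) (δ : ℝ) : Prop :=
  ∀ g : ℕ → ℝ, g 0 = 0 → g (ℓ + 1) = 0 → δ ^ 2 * ∑ i ∈ Finset.range ℓ, g (i + 1) ^ 2 ≤
    ∑ i ∈ Finset.range ℓ, (c i * g (i + 1) - g i - g (i + 2)) ^ 2

/-- a priori bound for functions vanishing at `ℓ + 1` -/
theorem low_left (ℓ : ℕ) (c : ℕ → ℝ) (δ : ℝ) (H : Low ℓ c δ) (g : ℕ → ℝ)
    (hg : g (ℓ + 1) = 0) (h0 : 1 ≤ ℓ) :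
    δ ^ 2 * ∑ i ∈ Finset.range ℓ, g (i + 1) ^ 2 ≤
      (c 0 * g 1 - g 2) ^ 2 +
        ∑ i ∈ Finset.Ico 1 ℓ, (c i * g (i + 1) - g i - g (i + 2)) ^ 2 := by
  have h := H (fun i => if i = 0 then 0 else g i) (by simp) (by simp [hg])
  have e1 : ∑ i ∈ Finset.range ℓ, (fun i => if i = 0 then 0 else g i) (i + 1) ^ 2 =
      ∑ i ∈ Finset.range ℓ, g (i + 1) ^ 2 := Finset.sum_congr rfl fun i _ => by simp
  rw [e1] at h
  refine h.trans (le_of_eq ?_)
  rw [Finset.range_eq_Ico, Finset.sum_eq_sum_Ico_succ_bot (by omega : 0 < ℓ)]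
  congr 1
  · simp
  · refine Finset.sum_congr rfl fun i hi => ?_
    have : i ≠ 0 := by have := (Finset.mem_Ico.mp hi).1; omega
    simp [this]

/-- a priori bound for functions vanishing at `0` -/
theorem low_right (ℓ : ℕ) (c : ℕ → ℝ) (δ : ℝ) (H : Low (ℓ + 1) c δ) (g : ℕ → ℝ)
    (hg : g 0 = 0) :
    δ ^ 2 * ∑ i ∈ Finset.range (ℓ + 1), g (i + 1) ^ 2 ≤
      ∑ i ∈ Finset.range ℓ, (c i * g (i + 1) - g i - g (i + 2)) ^ 2 +
        (c ℓ * g (ℓ + 1) - g ℓ) ^ 2 := by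
  have h := H (fun i => if i = ℓ + 2 then 0 else g i) (by simp [hg]) (by simp)
  have e1 : ∑ i ∈ Finset.range (ℓ + 1), (fun i => if i = ℓ + 2 then 0 else g i) (i + 1) ^ 2 =
      ∑ i ∈ Finset.range (ℓ + 1), g (i + 1) ^ 2 := Finset.sum_congr rfl fun i hi => by
    have : i + 1 ≠ ℓ + 2 := by have := Finset.mem_range.mp hi; omega
    simp only [this, if_false]
  rw [e1] at h
  refine h.trans (le_of_eq ?_)
  rw [Finset.sum_range_succ]
  congr 1
  · refine Finset.sum_congr rfl fun i hi => ?_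
    have hi' := Finset.mem_range.mp hi
    have h1 : i + 1 ≠ ℓ + 2 := by omega
    have h2 : i ≠ ℓ + 2 := by omega
    have h3 : i + 2 ≠ ℓ + 2 := by omega
    simp only [h1, h2, h3, if_false]
  · simp

theorem sum_sq_aux (P Q S a b c d : ℝ) (hP : 0 ≤ P) (hQ : 0 ≤ Q) (hS : 0 ≤ S) (h1 : a ≤ P ^ 2)
    (h2 : b ≤ Q ^ 2) (h3 : c ≤ Q ^ 2) (h4 : d ≤ S ^ 2) :
    a + b + c + d ≤ (P + Q + Q + S) ^ 2 := by
  have e : (P + Q + Q + S) ^ 2 = P ^ 2 + Q ^ 2 + Q ^ 2 + S ^ 2 + (2 * (Q * Q) + 4 * (P * Q) +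
    2 * (P * S) + 4 * (Q * S)) := by ring
  rw [e]
  have : 0 ≤ 2 * (Q * Q) + 4 * (P * Q) + 2 * (P * S) + 4 * (Q * S) := by positivity
  linarith

/-- the estimates for the transfer matrix -/
theorem top_left (ℓ : ℕ) (c : ℕ → ℝ) (δ R : ℝ) (hδ : 0 < δ) (hδ1 : δ ≤ 1) (hR : 2 / δ ≤ R)
    (H : Low ℓ c δ) (hM : R ^ 2 ≤ hs (tprod 0 (List.ofFn fun i : Fin ℓ => c i))) :
    1 ≤ ℓ ∧ R * δ ^ 2 / 8 ≤ |(tprod 0 (List.ofFn fun i : Fin ℓ => c i)) 0 0| := by
  have hR0 : 0 < R := lt_of_lt_of_le (by positivity) hR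
  have hℓ : 1 ≤ ℓ := by
    by_contra h
    have : ℓ = 0 := by omega
    subst this
    have e : hs (tprod 0 (List.ofFn fun i : Fin 0 => c i)) = 2 := by
      simp [hs, tprod_nil, Fin.sum_univ_two]; norm_num
    rw [e] at hM
    have h2 : 2 ≤ R := by
      refine le_trans ?_ hR
      rw [le_div_iff₀ hδ]; linarith
    nlinarith
  refine ⟨hℓ, ?_⟩
  obtain ⟨m, rfl⟩ : ∃ m, ℓ = m + 1 := ⟨ℓ - 1, by omega⟩
  set T := tprod 0 (List.ofFn fun i : Fin (m + 1) => c i) with hT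
  have hprop : ∀ x y, sol c x y (m + 2) = T 0 0 * y + T 0 1 * x ∧
      sol c x y (m + 1) = T 1 0 * y + T 1 1 * x := by
    intro x y
    have h := propag (m + 1) c (sol c x y) (fun i _ => sol_eq c x y i)
    rw [sol_zero, sol_one] at h
    exact h
  have hdet : T 0 0 * T 1 1 - T 0 1 * T 1 0 = 1 := by
    rw [← Matrix.det_fin_two]; exact tprod_det 0 _
  -- the corner does not vanish
  have ha : T 0 0 ≠ 0 := by
    intro h0
    have h1 := H (sol c 0 1) (sol_zero _ _ _) (by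
      rw [show m + 1 + 1 = m + 2 from rfl, (hprop 0 1).1, h0]; ring)
    have h2 : ∑ i ∈ Finset.range (m + 1), (c i * sol c 0 1 (i + 1) - sol c 0 1 i -
        sol c 0 1 (i + 2)) ^ 2 = 0 := Finset.sum_eq_zero fun i _ => by rw [sol_eq]; norm_num
    rw [h2] at h1
    have h3 : sol c 0 1 (0 + 1) ^ 2 ≤ ∑ i ∈ Finset.range (m + 1), sol c 0 1 (i + 1) ^ 2 :=
      Finset.single_le_sum (f := fun i => sol c 0 1 (i + 1) ^ 2) (fun i _ => sq_nonneg _)
        (Finset.mem_range.mpr (by omega))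
    rw [zero_add, sol_one] at h3
    have h4 : 0 < δ ^ 2 := by positivity
    nlinarith
  set a := T 0 0 with hadef
  set b := T 0 1 with hbdef
  set c' := T 1 0 with hcdef
  set d := T 1 1 with hddef
  -- first estimate
  have hF1 : sol c 1 (-(b / a)) (m + 2) = 0 := by
    rw [(hprop 1 (-(b / a))).1]; field_simp; ring
  have hF2 : sol c 1 (-(b / a)) (m + 1) = 1 / a := by
    rw [(hprop 1 (-(b / a))).2]
    field_simp
    linarith
  have hE1 := low_left (m + 1) c δ H (sol c 1 (-(b / a))) hF1 (by omega)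
  have hE1' : (c 0 * sol c 1 (-(b / a)) 1 - sol c 1 (-(b / a)) 2) ^ 2 +
      ∑ i ∈ Finset.Ico 1 (m + 1), (c i * sol c 1 (-(b / a)) (i + 1) - sol c 1 (-(b / a)) i -
        sol c 1 (-(b / a)) (i + 2)) ^ 2 = 1 := by
    rw [Finset.sum_eq_zero fun i _ => by rw [sol_eq]; norm_num]
    have h := sol_eq c 1 (-(b / a)) 0
    rw [zero_add, zero_add, sol_zero] at h
    have : c 0 * sol c 1 (-(b / a)) 1 - sol c 1 (-(b / a)) 2 = 1 := by linarith
    rw [this]; norm_num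
  rw [hE1'] at hE1
  have hb1 : δ ^ 2 * (b / a) ^ 2 ≤ 1 := by
    have h3 : sol c 1 (-(b / a)) (0 + 1) ^ 2 ≤
        ∑ i ∈ Finset.range (m + 1), sol c 1 (-(b / a)) (i + 1) ^ 2 :=
      Finset.single_le_sum (f := fun i => sol c 1 (-(b / a)) (i + 1) ^ 2) (fun i _ => sq_nonneg _)
        (Finset.mem_range.mpr (by omega))
    rw [zero_add, sol_one] at h3
    have h4 := mul_le_mul_of_nonneg_left h3 (sq_nonneg δ)
    rw [neg_sq] at h4
    linarith
  have ha1 : δ ^ 2 * (1 / a) ^ 2 ≤ 1 := by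
    have h3 : sol c 1 (-(b / a)) (m + 1) ^ 2 ≤
        ∑ i ∈ Finset.range (m + 1), sol c 1 (-(b / a)) (i + 1) ^ 2 :=
      Finset.single_le_sum (f := fun i => sol c 1 (-(b / a)) (i + 1) ^ 2) (fun i _ => sq_nonneg _)
        (Finset.mem_range.mpr (by omega))
    rw [hF2] at h3
    have h4 := mul_le_mul_of_nonneg_left h3 (sq_nonneg δ)
    linarith
  -- second estimate
  have hG1 : sol c 0 (1 / a) (m + 2) = 1 := by
    rw [(hprop 0 (1 / a)).1]; field_simp; ring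
  have hG2 : sol c 0 (1 / a) (m + 1) = c' / a := by
    rw [(hprop 0 (1 / a)).2]; field_simp; ring
  have hE2 := low_right m c δ H (sol c 0 (1 / a)) (sol_zero _ _ _)
  have hE2' : ∑ i ∈ Finset.range m, (c i * sol c 0 (1 / a) (i + 1) - sol c 0 (1 / a) i -
        sol c 0 (1 / a) (i + 2)) ^ 2 +
        (c m * sol c 0 (1 / a) (m + 1) - sol c 0 (1 / a) m) ^ 2 = 1 := by
    rw [Finset.sum_eq_zero fun i _ => by rw [sol_eq]; norm_num]
    have h := sol_eq c 0 (1 / a) m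
    rw [hG1] at h
    have : c m * sol c 0 (1 / a) (m + 1) - sol c 0 (1 / a) m = 1 := by linarith
    rw [this]; norm_num
  rw [hE2'] at hE2
  have hc1 : δ ^ 2 * (c' / a) ^ 2 ≤ 1 := by
    have h3 : sol c 0 (1 / a) (m + 1) ^ 2 ≤
        ∑ i ∈ Finset.range (m + 1), sol c 0 (1 / a) (i + 1) ^ 2 :=
      Finset.single_le_sum (f := fun i => sol c 0 (1 / a) (i + 1) ^ 2) (fun i _ => sq_nonneg _)
        (Finset.mem_range.mpr (by omega))
    rw [hG2] at h3
    have h4 := mul_le_mul_of_nonneg_left h3 (sq_nonneg δ)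
    linarith
  -- conclusion
  set A := |a| with hA
  have hA0 : 0 < A := abs_pos.mpr ha
  have key : ∀ t : ℝ, δ ^ 2 * (t / a) ^ 2 ≤ 1 → |t| ≤ A / δ := by
    intro t ht
    have h1 : (δ * |t / a|) ^ 2 ≤ 1 := by rw [mul_pow, sq_abs]; exact ht
    have h2 : δ * |t / a| ≤ 1 := by
      have h3 : 0 ≤ δ * |t / a| := by positivity
      nlinarith
    rw [abs_div, ← hA] at h2
    rw [le_div_iff₀ hδ]
    have h4 : δ * (|t| / A) = |t| * δ / A := by ring
    rw [h4, div_le_one hA0] at h2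
    exact h2
  have hbA := key b hb1
  have hcA := key c' hc1
  have h1A := key 1 ha1
  rw [abs_one] at h1A
  have hd : |d| ≤ 1 / δ + A / δ ^ 2 := by
    have h1 : a * d = 1 + b * c' := by linarith
    have h2 : A * |d| ≤ 1 + (A / δ) * (A / δ) := by
      rw [hA, ← abs_mul, h1]
      refine (abs_add_le _ _).trans ?_
      rw [abs_one, abs_mul]
      have := mul_le_mul hbA hcA (abs_nonneg _) (by positivity)
      linarith
    have h3 : 1 + (A / δ) * (A / δ) ≤ A * (1 / δ + A / δ ^ 2) := by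
      have : A * (1 / δ + A / δ ^ 2) = A / δ + (A / δ) * (A / δ) := by field_simp
      rw [this]; linarith
    exact le_of_mul_le_mul_left (h2.trans h3) hA0
  have hAδ : A ≤ A / δ := by rw [le_div_iff₀ hδ]; nlinarith
  have hAδ2 : A / δ ≤ A / δ ^ 2 := by
    rw [div_le_div_iff₀ hδ (by positivity)]
    nlinarith [mul_pos hA0 hδ, mul_nonneg (mul_pos hA0 hδ).le (sub_nonneg.mpr hδ1)]
  have hhs : hs T = a ^ 2 + b ^ 2 + c' ^ 2 + d ^ 2 := by
    unfold hs; rw [Fin.sum_univ_two, Fin.sum_univ_two, Fin.sum_univ_two]; ring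
  have hR2 : R ≤ 4 * (A / δ ^ 2) + 1 / δ := by
    by_contra hcon
    push Not at hcon
    have hP : R ^ 2 ≤ (A + A / δ + A / δ + (1 / δ + A / δ ^ 2)) ^ 2 := by
      refine hM.trans ?_
      rw [hhs]
      have e1 : a ^ 2 = A ^ 2 := by rw [hA, sq_abs]
      have e2 : b ^ 2 ≤ (A / δ) ^ 2 := by rw [← sq_abs]; exact pow_le_pow_left₀ (abs_nonneg _) hbA 2
      have e3 : c' ^ 2 ≤ (A / δ) ^ 2 := by
        rw [← sq_abs]; exact pow_le_pow_left₀ (abs_nonneg _) hcA 2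
      have e4 : d ^ 2 ≤ (1 / δ + A / δ ^ 2) ^ 2 := by
        rw [← sq_abs]; exact pow_le_pow_left₀ (abs_nonneg _) hd 2
      have p1 : 0 ≤ A / δ := by positivity
      have p2 : 0 ≤ 1 / δ + A / δ ^ 2 := by positivity
      exact sum_sq_aux A (A / δ) (1 / δ + A / δ ^ 2) _ _ _ _ hA0.le p1 p2 e1.le e2 e3 e4
    have h5 : R ≤ A + A / δ + A / δ + (1 / δ + A / δ ^ 2) := by
      refine le_of_sq_le_sq' hP ?_
      positivity
    linarith
  have h6 : 1 / δ ≤ R / 2 := by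
    have : 2 / δ = 2 * (1 / δ) := by ring
    linarith
  have h7 : R / 2 ≤ 4 * (A / δ ^ 2) := by linarith
  have h8 : 4 * (A / δ ^ 2) = 4 * A / δ ^ 2 := by ring
  rw [h8, le_div_iff₀ (by positivity)] at h7
  linarith
where
  le_of_sq_le_sq' {x y : ℝ} (h : x ^ 2 ≤ y ^ 2) (hy : 0 ≤ y) : x ≤ y :=
    (abs_le_of_sq_le_sq' h hy).2

/-- inhomogeneous chain lemma -/
theorem chain_inhom (ℓ : ℕ) (c : ℕ → ℝ) (δ R : ℝ) (hδ : 0 < δ) (hδ1 : δ ≤ 1) (hR : 2 / δ ≤ R)
    (H : Low ℓ c δ) (hM : R ^ 2 ≤ hs (tprod 0 (List.ofFn fun i : Fin ℓ => c i)))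
    (f : ℕ → ℝ) (hf : f (ℓ + 1) = 0) :
    ∃ g : ℝ, |g| ≤ 8 / (R * δ ^ 2) * |f 0| ∧
      δ ^ 2 * (f ℓ - g) ^ 2 ≤
        ∑ i ∈ Finset.range ℓ, (c i * f (i + 1) - f i - f (i + 2)) ^ 2 := by
  obtain ⟨hℓ, hA⟩ := top_left ℓ c δ R hδ hδ1 hR H hM
  have hR0 : 0 < R := lt_of_lt_of_le (by positivity) hR
  set T := tprod 0 (List.ofFn fun i : Fin ℓ => c i) with hT
  have hAp : 0 < |T 0 0| := lt_of_lt_of_le (by positivity) hA
  have ha : T 0 0 ≠ 0 := abs_pos.mp hAp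
  have hdet : T 0 0 * T 1 1 - T 0 1 * T 1 0 = 1 := by
    rw [← Matrix.det_fin_two]; exact tprod_det 0 _
  set y := -(T 0 1 / T 0 0) * f 0 with hy
  have hprop := propag ℓ c (sol c (f 0) y) (fun i _ => sol_eq c (f 0) y i)
  rw [sol_zero, sol_one, ← hT] at hprop
  have hend : sol c (f 0) y (ℓ + 1) = 0 := by
    rw [hprop.1, hy]; field_simp; ring
  have hl : sol c (f 0) y ℓ = f 0 / T 0 0 := by
    rw [hprop.2, hy]; field_simp
    have : T 0 0 * T 1 1 = 1 + T 0 1 * T 1 0 := by linarith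
    linear_combination f 0 * this
  refine ⟨sol c (f 0) y ℓ, ?_, ?_⟩
  · rw [hl, abs_div, div_eq_mul_inv, mul_comm]
    refine mul_le_mul_of_nonneg_right ?_ (abs_nonneg _)
    rw [inv_eq_one_div, div_le_div_iff₀ hAp (by positivity)]
    linarith
  · have h := H (fun i => f i - sol c (f 0) y i) (by simp [sol_zero]) (by simp [hf, hend])
    have e1 : ∑ i ∈ Finset.range ℓ, (c i * (f (i + 1) - sol c (f 0) y (i + 1)) -
        (f i - sol c (f 0) y i) - (f (i + 2) - sol c (f 0) y (i + 2))) ^ 2 =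
        ∑ i ∈ Finset.range ℓ, (c i * f (i + 1) - f i - f (i + 2)) ^ 2 := by
      refine Finset.sum_congr rfl fun i _ => ?_
      congr 1
      linear_combination -sol_eq c (f 0) y i
    rw [e1] at h
    refine le_trans (mul_le_mul_of_nonneg_left ?_ (sq_nonneg δ)) h
    obtain ⟨m, rfl⟩ : ∃ m, ℓ = m + 1 := ⟨ℓ - 1, by omega⟩
    exact Finset.single_le_sum (f := fun i => (f (i + 1) - sol c (f 0) y (i + 1)) ^ 2)
      (fun i _ => sq_nonneg _) (Finset.mem_range.mpr (by omega))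

theorem chain : S_chain := by
  intro ℓ c δ R hδ hδ1 hR H hM f hf hend
  obtain ⟨g, hg1, hg2⟩ := chain_inhom ℓ c δ R hδ hδ1 hR H hM f hend
  have h0 : ∑ i ∈ Finset.range ℓ, (c i * f (i + 1) - f i - f (i + 2)) ^ 2 = 0 :=
    Finset.sum_eq_zero fun i hi => by rw [hf i (Finset.mem_range.mp hi)]; norm_num
  rw [h0] at hg2
  have h1 : f ℓ - g = 0 := by
    have h3 : (f ℓ - g) ^ 2 ≤ 0 := by
      by_contra hcon
      push Not at hcon
      have := mul_pos (pow_pos hδ 2) hcon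
      linarith
    have h4 := le_antisymm h3 (sq_nonneg _)
    exact pow_eq_zero_iff (two_ne_zero) |>.mp h4
  have h2 : f ℓ = g := by linarith
  rw [h2]; exact hg1

end Pool.Agent.H140.AH
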