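import Mathlib

/-!
# Spectral data of a real symmetric matrix, in coordinates (helper140)
-/

set_option autoImplicit false

noncomputable section

namespace Pool.Agent.H140.AH

open Matrix

/-- orthonormal eigenbasis of a real symmetric matrix, in coordinates -/
theorem spec {ι : Type} [Fintype ι] [DecidableEq ι] (A : Matrix ι ι ℝ) (hA : A.IsSymm) :
    ∃ (lam : ι → ℝ) (u : ι → ι → ℝ),
      (∀ i x, A.mulVec (u i) x = lam i * u i x) ∧
      (∀ i j, ∑ x, u i x * u j x = if i = j then 1 else 0) ∧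
      (∀ x y, ∑ i, u i x * u i y = if x = y then 1 else 0) := by
  have hH : A.IsHermitian := by
    rw [Matrix.IsHermitian, Matrix.conjTranspose_eq_transpose_of_trivial]; exact hA
  let b := hH.eigenvectorBasis
  let U : Matrix ι ι ℝ := Matrix.of fun i x => b i x
  have h2 : ∀ i j, ∑ x, b i x * b j x = if i = j then 1 else 0 := by
    intro i j
    have h := orthonormal_iff_ite.mp b.orthonormal i j
    rw [EuclideanSpace.inner_eq_star_dotProduct] at h
    simp only [dotProduct, Pi.star_apply, star_trivial] at h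
    rw [← h]
    exact Finset.sum_congr rfl fun x _ => mul_comm _ _
  have h3 : U * U.transpose = 1 := by
    ext i j
    rw [Matrix.mul_apply, Matrix.one_apply]
    exact h2 i j
  have h4 : U.transpose * U = 1 := mul_eq_one_comm.mp h3
  refine ⟨hH.eigenvalues, fun i x => b i x, ?_, h2, ?_⟩
  · intro i x
    have h := congrFun (hH.mulVec_eigenvectorBasis i) x
    simpa using h
  · intro x y
    have h := congrFun (congrFun h4 x) y
    rw [Matrix.mul_apply, Matrix.one_apply] at h
    exact h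

variable {ι : Type} [Fintype ι] [DecidableEq ι]

/-- coefficient -/
def co (u : ι → ι → ℝ) (f : ι → ℝ) (i : ι) : ℝ := ∑ x, u i x * f x

theorem expand (u : ι → ι → ℝ) (h : ∀ x y, ∑ i, u i x * u i y = if x = y then 1 else 0)
    (f : ι → ℝ) (x : ι) : ∑ i, co u f i * u i x = f x := by
  unfold co
  simp_rw [Finset.sum_mul]
  rw [Finset.sum_comm]
  have : ∀ y, ∑ i, u i y * f y * u i x = f y * (if y = x then 1 else 0) := by
    intro y
    rw [← h y x, Finset.mul_sum]
    exact Finset.sum_congr rfl fun i _ => by ring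
  simp_rw [this]
  simp

theorem parseval (u : ι → ι → ℝ) (h : ∀ x y, ∑ i, u i x * u i y = if x = y then 1 else 0)
    (f : ι → ℝ) : ∑ i, (co u f i) ^ 2 = ∑ x, f x ^ 2 := by
  have h1 : ∀ i, (co u f i) ^ 2 = ∑ x, f x * (co u f i * u i x) := by
    intro i
    have : (co u f i) ^ 2 = co u f i * ∑ x, u i x * f x := by rw [sq]; rfl
    rw [this, Finset.mul_sum]
    exact Finset.sum_congr rfl fun i _ => by ring
  simp_rw [h1]
  rw [Finset.sum_comm]
  refine Finset.sum_congr rfl fun x _ => ?_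
  rw [← Finset.mul_sum, expand u h, sq]

omit [DecidableEq ι] in
theorem co_apply (A : Matrix ι ι ℝ) (hA : A.IsSymm) (lam : ι → ℝ) (u : ι → ι → ℝ)
    (h1 : ∀ i x, A.mulVec (u i) x = lam i * u i x) (E : ℝ) (f : ι → ℝ) (i : ι) :
    co u (fun x => A.mulVec f x - E * f x) i = (lam i - E) * co u f i := by
  unfold co
  have h2 : ∑ x, u i x * A.mulVec f x = ∑ x, A.mulVec (u i) x * f x := by
    have e1 : ∑ x, u i x * A.mulVec f x = (u i) ⬝ᵥ (A.mulVec f) := rfl
    have e2 : ∑ x, A.mulVec (u i) x * f x = (A.mulVec (u i)) ⬝ᵥ f := rfl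
    rw [e1, e2, Matrix.dotProduct_mulVec]
    congr 1
    rw [← Matrix.mulVec_transpose, hA.eq]
  have h3 : ∑ x, u i x * (A.mulVec f x - E * f x) =
      ∑ x, u i x * A.mulVec f x - E * ∑ x, u i x * f x := by
    rw [Finset.mul_sum, ← Finset.sum_sub_distrib]
    exact Finset.sum_congr rfl fun x _ => by ring
  rw [h3, h2]
  simp_rw [h1]
  rw [sub_mul, Finset.mul_sum, Finset.mul_sum, ← Finset.sum_sub_distrib,
    ← Finset.sum_sub_distrib]
  exact Finset.sum_congr rfl fun x _ => by ring

/-- away from the spectrum the operator is bounded below -/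
theorem below (A : Matrix ι ι ℝ) (hA : A.IsSymm) (lam : ι → ℝ) (u : ι → ι → ℝ)
    (h1 : ∀ i x, A.mulVec (u i) x = lam i * u i x)
    (h3 : ∀ x y, ∑ i, u i x * u i y = if x = y then 1 else 0) (δ E : ℝ) (hδ : 0 ≤ δ)
    (hE : ∀ i, δ ≤ |E - lam i|) (f : ι → ℝ) :
    δ ^ 2 * ∑ x, f x ^ 2 ≤ ∑ x, (A.mulVec f x - E * f x) ^ 2 := by
  rw [← parseval u h3 f, ← parseval u h3 (fun x => A.mulVec f x - E * f x), Finset.mul_sum]
  refine Finset.sum_le_sum fun i _ => ?_
  rw [co_apply A hA lam u h1, mul_pow]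
  refine mul_le_mul_of_nonneg_right ?_ (sq_nonneg _)
  have h := hE i
  rw [← sq_abs (lam i - E), abs_sub_comm]
  exact pow_le_pow_left₀ hδ h 2

/-- the formula for the resolvent entries -/
theorem resolv (A : Matrix ι ι ℝ) (hA : A.IsSymm) (lam : ι → ℝ) (u : ι → ι → ℝ)
    (h1 : ∀ i x, A.mulVec (u i) x = lam i * u i x)
    (h3 : ∀ x y, ∑ i, u i x * u i y = if x = y then 1 else 0) (E : ℝ)
    (hE : ∀ i, lam i ≠ E) (x₀ : ι) (r : ι → ℝ)
    (hr : ∀ x, A.mulVec r x - E * r x = if x = x₀ then 1 else 0) (z : ι) :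
    r z = ∑ i, u i x₀ * u i z / (lam i - E) := by
  have h4 : ∀ i, co u r i = u i x₀ / (lam i - E) := by
    intro i
    have h5 := co_apply A hA lam u h1 E r i
    have h6 : co u (fun x => A.mulVec r x - E * r x) i = u i x₀ := by
      unfold co
      simp_rw [hr]
      simp
    rw [h6] at h5
    rw [h5, mul_div_cancel_left₀]
    exact sub_ne_zero.mpr (hE i)
  rw [← expand u h3 r z]
  refine Finset.sum_congr rfl fun i _ => ?_
  rw [h4]; ring

end Pool.Agent.H140.AH
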