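import Mathlib
import Pool.Agent.Q234.AH.Stm
import Pool.Agent.H140.AH.AHSpec
import Pool.Agent.H140.AH.AHChain

/-!
# BAR (helper140, job 133)
-/

set_option autoImplicit false

noncomputable section

namespace Pool.Agent.H140.AH

open MeasureTheory Pool.Agent.Q234.AH

/-! ### the chain matrix -/

/-- matrix of the chain operator with Dirichlet conditions -/
def chM (ℓ : ℕ) (v : ℕ → ℝ) : Matrix (Fin ℓ) (Fin ℓ) ℝ :=
  Matrix.of fun i k => (if i.1 = k.1 then v i.1 else 0) - (if k.1 = i.1 + 1 then 1 else 0)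
    - (if i.1 = k.1 + 1 then 1 else 0)

theorem chM_symm (ℓ : ℕ) (v : ℕ → ℝ) : (chM ℓ v).IsSymm := by
  ext i k
  rw [Matrix.transpose_apply]
  simp only [chM, Matrix.of_apply]
  by_cases h : i.1 = k.1
  · rw [if_pos h, if_pos h.symm, h]
  · rw [if_neg h, if_neg (fun h' => h h'.symm)]
    ring

theorem chM_mulVec (ℓ : ℕ) (v : ℕ → ℝ) (g : ℕ → ℝ) (h0 : g 0 = 0) (h1 : g (ℓ + 1) = 0)
    (i : Fin ℓ) : (chM ℓ v).mulVec (fun k => g (k.1 + 1)) i =
      v i.1 * g (i.1 + 1) - g i.1 - g (i.1 + 2) := by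
  have e0 : (chM ℓ v).mulVec (fun k => g (k.1 + 1)) i =
      ∑ k : Fin ℓ, ((if i.1 = k.1 then v i.1 else 0) - (if k.1 = i.1 + 1 then 1 else 0)
    - (if i.1 = k.1 + 1 then 1 else 0)) * g (k.1 + 1) := rfl
  have hi := i.2
  rw [e0, Fin.sum_univ_eq_sum_range (fun k => ((if i.1 = k then v i.1 else 0) -
    (if k = i.1 + 1 then 1 else 0) - (if i.1 = k + 1 then 1 else 0)) * g (k + 1)) ℓ]
  simp_rw [sub_mul]
  rw [Finset.sum_sub_distrib, Finset.sum_sub_distrib]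
  have e1 : ∑ k ∈ Finset.range ℓ, (if i.1 = k then v i.1 else 0) * g (k + 1) =
      v i.1 * g (i.1 + 1) := by
    rw [Finset.sum_eq_single i.1]
    · simp
    · intro k _ hk; rw [if_neg (Ne.symm hk), zero_mul]
    · intro h; exact absurd (Finset.mem_range.mpr hi) h
  have e2 : ∑ k ∈ Finset.range ℓ, (if k = i.1 + 1 then (1 : ℝ) else 0) * g (k + 1) =
      g (i.1 + 2) := by
    by_cases h : i.1 + 1 < ℓ
    · rw [Finset.sum_eq_single (i.1 + 1)]
      · simp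
      · intro k _ hk; rw [if_neg hk, zero_mul]
      · intro h'; exact absurd (Finset.mem_range.mpr h) h'
    · have h2 : i.1 + 1 = ℓ := by omega
      have h3 : i.1 + 2 = ℓ + 1 := by omega
      rw [h3, h1]
      refine Finset.sum_eq_zero fun k hk => ?_
      have := Finset.mem_range.mp hk
      rw [if_neg (by omega), zero_mul]
  have e3 : ∑ k ∈ Finset.range ℓ, (if i.1 = k + 1 then (1 : ℝ) else 0) * g (k + 1) =
      g i.1 := by
    by_cases h : i.1 = 0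
    · rw [h, h0]
      refine Finset.sum_eq_zero fun k _ => ?_
      rw [if_neg (by omega), zero_mul]
    · rw [Finset.sum_eq_single (i.1 - 1)]
      · have : i.1 - 1 + 1 = i.1 := by omega
        rw [this]; simp
      · intro k _ hk; rw [if_neg (by omega), zero_mul]
      · intro h'; exact absurd (Finset.mem_range.mpr (by omega)) h'
  rw [e1, e2, e3]; ring

/-- the chain operator is bounded below outside a small set of energies -/
theorem low_of_weg (h3 : S_weg) (ℓ : ℕ) (v : ℕ → ℝ) (δ : ℝ) (hδ : 0 < δ) :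
    ∃ Bad : Set ℝ, MeasurableSet Bad ∧ volume Bad ≤ ENNReal.ofReal (2 * δ * ℓ) ∧
      ∀ E, E ∉ Bad → Low ℓ (fun i => v i - E) δ := by
  obtain ⟨Bad, hB1, hB2, hB3⟩ := h3 (Fin ℓ) (chM ℓ v) (chM_symm ℓ v) δ hδ
  rw [Fintype.card_fin] at hB2
  refine ⟨Bad, hB1, hB2, fun E hE g h0 h1 => ?_⟩
  have h := hB3 E hE (fun k => g (k.1 + 1))
  simp_rw [chM_mulVec ℓ v g h0 h1] at h
  rw [Fin.sum_univ_eq_sum_range (fun i => g (i + 1) ^ 2) ℓ,
    Fin.sum_univ_eq_sum_range (fun i => (v i * g (i + 1) - g i - g (i + 2) -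
      E * g (i + 1)) ^ 2) ℓ] at h
  refine h.trans (le_of_eq ?_)
  exact Finset.sum_congr rfl fun i _ => by ring

/-! ### the choice of the word -/

theorem tprod_cont (l : List ℝ) : Continuous fun e : ℝ => Pool.Agent.Q234.AH.tprod e l := by
  induction l with
  | nil => exact continuous_const
  | cons v l ih =>
    simp_rw [tprod_cons]
    refine ih.matrix_mul ?_
    refine continuous_matrix fun i j => ?_
    fin_cases i <;> fin_cases j <;> simp <;> fun_prop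

theorem hs_cont (l : List ℝ) (μ : ℝ) :
    Continuous fun E : ℝ => hs (Pool.Agent.Q234.AH.tprod (E - μ) l) := by
  unfold hs
  refine continuous_finsetSum _ fun i _ => continuous_finsetSum _ fun j _ => ?_
  refine Continuous.pow ?_ 2
  exact ((tprod_cont l).matrix_elem i j).comp (continuous_id.sub continuous_const)

theorem word_sel (p q M C0 ρ : ℝ) (_hM : 0 < M)
    (hgrow : ∀ e : ℝ, |e| ≤ 2 * M → ∀ (ℓ : ℕ) (R : ℝ), 0 < R →
      ((Finset.univ.filter fun b : Fin ℓ → Bool =>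
        hs (Pool.Agent.Q234.AH.tprod e (wd p q b)) ≤ R ^ 2).card : ℝ) ≤
      C0 * R ^ 2 * ρ ^ ℓ * 2 ^ ℓ)
    {Y : Type} [Fintype Y] (μ : Y → ℝ) (hμ : ∀ j, |μ j| ≤ M) (ℓ : ℕ) (R : ℝ) (hR : 0 < R)
    (hN : 0 ≤ C0 * R ^ 2 * ρ ^ ℓ) :
    ∃ (b : Fin ℓ → Bool) (G : Set ℝ), MeasurableSet G ∧
      volume G ≤ ENNReal.ofReal (Fintype.card Y * (2 * M) * (C0 * R ^ 2 * ρ ^ ℓ)) ∧
      ∀ E : ℝ, |E| ≤ M → E ∉ G → ∀ j, R ^ 2 ≤ hs (Pool.Agent.Q234.AH.tprod (E - μ j) (wd p q b)) := by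
  classical
  let S : (Fin ℓ → Bool) → Y → Set ℝ := fun b j =>
    {E | hs (Pool.Agent.Q234.AH.tprod (E - μ j) (wd p q b)) ≤ R ^ 2}
  have hS : ∀ b j, MeasurableSet (S b j) := fun b j =>
    (isClosed_le (hs_cont (wd p q b) (μ j)) continuous_const).measurableSet
  let I : Set ℝ := Set.Icc (-M) M
  have hvol : ∀ j, ∑ b, volume (S b j ∩ I) ≤
      ENNReal.ofReal (2 * M * (C0 * R ^ 2 * ρ ^ ℓ * 2 ^ ℓ)) := by
    intro j
    have e1 : ∀ b, volume (S b j ∩ I) = ∫⁻ E in I, (S b j).indicator 1 E := by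
      intro b
      rw [lintegral_indicator_one (hS b j), Measure.restrict_apply (hS b j)]
    simp_rw [e1]
    rw [← lintegral_finsetSum _ fun b _ => measurable_one.indicator (hS b j)]
    calc ∫⁻ E in I, ∑ b, (S b j).indicator 1 E
        ≤ ∫⁻ _E in I, ENNReal.ofReal (C0 * R ^ 2 * ρ ^ ℓ * 2 ^ ℓ) := by
          refine setLIntegral_mono measurable_const fun E hE => ?_
          have e2 : ∑ b, (S b j).indicator (1 : ℝ → ENNReal) E =
              ((Finset.univ.filter fun b : Fin ℓ → Bool =>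
                hs (Pool.Agent.Q234.AH.tprod (E - μ j) (wd p q b)) ≤ R ^ 2).card : ENNReal) := by
            rw [Finset.card_filter, Nat.cast_sum]
            refine Finset.sum_congr rfl fun b _ => ?_
            simp only [Set.indicator, S, Set.mem_ofPred_eq, Pi.one_apply]
            split_ifs <;> simp
          rw [e2, ← ENNReal.ofReal_natCast]
          refine ENNReal.ofReal_le_ofReal (hgrow _ ?_ ℓ R hR)
          have h1 : |E| ≤ M := abs_le.mpr hE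
          have h2 := hμ j
          calc |E - μ j| ≤ |E| + |μ j| := abs_sub _ _
            _ ≤ 2 * M := by linarith
      _ = ENNReal.ofReal (2 * M * (C0 * R ^ 2 * ρ ^ ℓ * 2 ^ ℓ)) := by
          rw [setLIntegral_const, Real.volume_Icc, ← ENNReal.ofReal_mul (by positivity)]
          congr 1; ring
  by_contra hcon
  push Not at hcon
  have hlt : ∀ b, ENNReal.ofReal (Fintype.card Y * (2 * M) * (C0 * R ^ 2 * ρ ^ ℓ)) <
      volume (⋃ j, S b j ∩ I) := by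
    intro b
    by_contra hle
    push Not at hle
    obtain ⟨E, hE1, hE2, j, hj⟩ := hcon b (⋃ j, S b j ∩ I)
      (MeasurableSet.iUnion fun j => (hS b j).inter measurableSet_Icc) hle
    exact hE2 (Set.mem_iUnion.mpr ⟨j, hj.le, abs_le.mp hE1⟩)
  have h1 : ∑ _b : Fin ℓ → Bool, ENNReal.ofReal (Fintype.card Y * (2 * M) * (C0 * R ^ 2 * ρ ^ ℓ)) <
      ∑ b, volume (⋃ j, S b j ∩ I) :=
    ENNReal.sum_lt_sum_of_nonempty Finset.univ_nonempty fun b _ => hlt b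
  have h2 : ∑ b, volume (⋃ j, S b j ∩ I) ≤
      ENNReal.ofReal (Fintype.card Y * (2 * M * (C0 * R ^ 2 * ρ ^ ℓ * 2 ^ ℓ))) := by
    calc ∑ b, volume (⋃ j, S b j ∩ I) ≤ ∑ b, ∑ j, volume (S b j ∩ I) :=
          Finset.sum_le_sum fun b _ => measure_iUnion_fintype_le _ _
      _ = ∑ j, ∑ b, volume (S b j ∩ I) := Finset.sum_comm
      _ ≤ ∑ _j : Y, ENNReal.ofReal (2 * M * (C0 * R ^ 2 * ρ ^ ℓ * 2 ^ ℓ)) :=
          Finset.sum_le_sum fun j _ => hvol j
      _ = _ := by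
          rw [Finset.sum_const, Finset.card_univ, nsmul_eq_mul,
            ENNReal.ofReal_mul (Nat.cast_nonneg _), ENNReal.ofReal_natCast]
  have h3 : ∑ _b : Fin ℓ → Bool, ENNReal.ofReal (Fintype.card Y * (2 * M) * (C0 * R ^ 2 * ρ ^ ℓ)) =
      ENNReal.ofReal (Fintype.card Y * (2 * M * (C0 * R ^ 2 * ρ ^ ℓ * 2 ^ ℓ))) := by
    rw [Finset.sum_const, Finset.card_univ, nsmul_eq_mul, ← ENNReal.ofReal_natCast,
      ← ENNReal.ofReal_mul (Nat.cast_nonneg _)]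
    congr 1
    rw [Fintype.card_fun, Fintype.card_bool, Fintype.card_fin]
    push_cast; ring
  rw [h3] at h1
  exact absurd (h1.trans_le h2) (lt_irrefl _)

/-! ### the deterministic part -/

theorem tprod_shift (e : ℝ) {ℓ : ℕ} (v : Fin ℓ → ℝ) :
    Pool.Agent.Q234.AH.tprod 0 (List.ofFn fun i => v i - e) =
      Pool.Agent.Q234.AH.tprod e (List.ofFn v) := by
  induction ℓ with
  | zero => simp [tprod_nil]
  | succ ℓ ih =>
    rw [List.ofFn_succ, List.ofFn_succ, tprod_cons, tprod_cons, ih fun i => v i.succ, sub_zero]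

theorem bar_det {Y : Type} [Fintype Y] [DecidableEq Y] (A : Matrix Y Y ℝ) (hA : A.IsSymm)
    (μ : Y → ℝ) (χ : Y → Y → ℝ) (h1 : ∀ i x, A.mulVec (χ i) x = μ i * χ i x)
    (h3 : ∀ x y, ∑ i, χ i x * χ i y = if x = y then 1 else 0) (ℓ : ℕ) (hℓ : 1 ≤ ℓ) (w : ℕ → ℝ)
    (E δ R ε s : ℝ) (hδ : 0 < δ) (hδ1 : δ ≤ 1) (hs0 : 0 < s) (hε0 : 0 ≤ ε)
    (hR : 2 / δ ≤ R) (hRs : 8 / (R * δ ^ 2) ≤ s / 2) (hε1 : ε ≤ δ / 2)
    (hε2 : ε ≤ s * δ ^ 2 / 4)
    (H : ∀ j, Low ℓ (fun i => w i + μ j - E) δ)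
    (hM : ∀ j, R ^ 2 ≤ hs (Pool.Agent.Q234.AH.tprod 0 (List.ofFn fun i : Fin ℓ => w i + μ j - E)))
    (W : ℕ → Y → ℝ) (hW : ∀ i < ℓ, ∀ y, |W i y - w i| ≤ ε) (f : ℕ → Y → ℝ)
    (hf : ∀ i < ℓ, ∀ y, W i y * f (i + 1) y + A.mulVec (f (i + 1)) y - f i y - f (i + 2) y =
          E * f (i + 1) y) (hend : ∀ y, f (ℓ + 1) y = 0) :
    ∑ y, f ℓ y ^ 2 ≤ s ^ 2 * ∑ y, f 0 y ^ 2 := by
  -- channels
  set γ : Y → ℕ → ℝ := fun j i => co χ (f i) j with hγ
  set err : ℕ → Y → ℝ := fun i y => (w i - W i y) * f (i + 1) y with herr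
  set τ : Y → ℕ → ℝ := fun j i => co χ (err i) j with hτ
  have hγe : ∀ j, γ j (ℓ + 1) = 0 := by
    intro j
    simp only [hγ, co]
    exact Finset.sum_eq_zero fun y _ => by rw [hend]; ring
  have heq : ∀ i < ℓ, ∀ j, (w i + μ j - E) * γ j (i + 1) - γ j i - γ j (i + 2) = τ j i := by
    intro i hi j
    have e1 : ∀ y, err i y = w i * f (i + 1) y + (A.mulVec (f (i + 1)) y - E * f (i + 1) y) -
        f i y - f (i + 2) y := by
      intro y
      simp only [herr]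
      linear_combination -(hf i hi y)
    have e2 : τ j i = w i * co χ (f (i + 1)) j +
        co χ (fun y => A.mulVec (f (i + 1)) y - E * f (i + 1) y) j - co χ (f i) j -
          co χ (f (i + 2)) j := by
      simp only [hτ, co]
      rw [Finset.mul_sum, ← Finset.sum_add_distrib, ← Finset.sum_sub_distrib,
        ← Finset.sum_sub_distrib]
      exact Finset.sum_congr rfl fun y _ => by rw [e1]; ring
    rw [e2, co_apply A hA μ χ h1]
    simp only [hγ]; ring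
  have hpar : ∀ i, ∑ j, γ j i ^ 2 = ∑ y, f i y ^ 2 := fun i => parseval χ h3 (f i)
  have hpare : ∀ i, ∑ j, τ j i ^ 2 = ∑ y, err i y ^ 2 := fun i => parseval χ h3 (err i)
  have herrb : ∀ i < ℓ, ∑ y, err i y ^ 2 ≤ ε ^ 2 * ∑ y, f (i + 1) y ^ 2 := by
    intro i hi
    rw [Finset.mul_sum]
    refine Finset.sum_le_sum fun y _ => ?_
    simp only [herr]
    rw [mul_pow]
    refine mul_le_mul_of_nonneg_right ?_ (sq_nonneg _)
    rw [← sq_abs, abs_sub_comm]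
    exact pow_le_pow_left₀ (abs_nonneg _) (hW i hi y) 2
  set F0 : ℝ := ∑ y, f 0 y ^ 2 with hF0
  have hF0n : 0 ≤ F0 := Finset.sum_nonneg fun y _ => sq_nonneg _
  set N : ℝ := ∑ i ∈ Finset.range ℓ, ∑ y, f (i + 1) y ^ 2 with hN
  have hNn : 0 ≤ N := Finset.sum_nonneg fun i _ => Finset.sum_nonneg fun y _ => sq_nonneg _
  have hτsum : ∑ j, ∑ i ∈ Finset.range ℓ, τ j i ^ 2 ≤ ε ^ 2 * N := by
    rw [Finset.sum_comm, hN, Finset.mul_sum]
    refine Finset.sum_le_sum fun i hi => ?_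
    rw [hpare]; exact herrb i (Finset.mem_range.mp hi)
  -- a priori bound
  have hap : δ ^ 2 * N ≤ 2 * (ε ^ 2 * N) + 2 * F0 := by
    have hj : ∀ j, δ ^ 2 * ∑ i ∈ Finset.range ℓ, γ j (i + 1) ^ 2 ≤
        2 * ∑ i ∈ Finset.range ℓ, τ j i ^ 2 + 2 * γ j 0 ^ 2 := by
      intro j
      refine (low_left ℓ _ δ (H j) (γ j) (hγe j) hℓ).trans ?_
      have e1 := heq 0 (by omega) j
      rw [zero_add, zero_add] at e1
      have e2 : ∑ i ∈ Finset.Ico 1 ℓ, ((w i + μ j - E) * γ j (i + 1) - γ j i - γ j (i + 2)) ^ 2 =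
          ∑ i ∈ Finset.Ico 1 ℓ, τ j i ^ 2 := Finset.sum_congr rfl fun i hi => by
        rw [heq i (Finset.mem_Ico.mp hi).2 j]
      have e3 : ∑ i ∈ Finset.range ℓ, τ j i ^ 2 = τ j 0 ^ 2 + ∑ i ∈ Finset.Ico 1 ℓ, τ j i ^ 2 := by
        rw [Finset.range_eq_Ico, Finset.sum_eq_sum_Ico_succ_bot (by omega : 0 < ℓ)]
      have e4 : (w 0 + μ j - E) * γ j 1 - γ j 2 = τ j 0 + γ j 0 := by linarith
      rw [e2, e3, e4]
      have e5 : 0 ≤ ∑ i ∈ Finset.Ico 1 ℓ, τ j i ^ 2 := Finset.sum_nonneg fun i _ => sq_nonneg _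
      nlinarith [sq_nonneg (τ j 0 - γ j 0)]
    have hsum := Finset.sum_le_sum fun (j : Y) (_ : j ∈ Finset.univ) => hj j
    rw [← Finset.mul_sum, Finset.sum_comm, Finset.sum_add_distrib, ← Finset.mul_sum,
      ← Finset.mul_sum, hpar 0] at hsum
    have e6 : ∑ i ∈ Finset.range ℓ, ∑ j, γ j (i + 1) ^ 2 = N := by
      rw [hN]; exact Finset.sum_congr rfl fun i _ => hpar (i + 1)
    rw [e6] at hsum
    refine hsum.trans ?_
    have := mul_le_mul_of_nonneg_left hτsum (by norm_num : (0 : ℝ) ≤ 2)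
    linarith
  have hε3 : ε ^ 2 ≤ δ ^ 2 / 4 := by
    have := pow_le_pow_left₀ hε0 hε1 2
    have e : (δ / 2) ^ 2 = δ ^ 2 / 4 := by ring
    rwa [e] at this
  have hN2 : δ ^ 2 * N ≤ 4 * F0 := by
    have := mul_le_mul_of_nonneg_right hε3 hNn
    linarith
  -- the main bound
  have hmain : ∑ y, f ℓ y ^ 2 ≤ 2 * (s / 2) ^ 2 * F0 + 2 * (ε ^ 2 * N) / δ ^ 2 := by
    rw [← hpar ℓ]
    have hj : ∀ j, γ j ℓ ^ 2 ≤ 2 * (s / 2) ^ 2 * γ j 0 ^ 2 +
        2 * (∑ i ∈ Finset.range ℓ, τ j i ^ 2) / δ ^ 2 := by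
      intro j
      obtain ⟨g, hg1, hg2⟩ := chain_inhom ℓ (fun i => w i + μ j - E) δ R hδ hδ1 hR (H j) (hM j)
        (γ j) (hγe j)
      have e1 : ∑ i ∈ Finset.range ℓ, ((w i + μ j - E) * γ j (i + 1) - γ j i - γ j (i + 2)) ^ 2 =
          ∑ i ∈ Finset.range ℓ, τ j i ^ 2 := Finset.sum_congr rfl fun i hi => by
        rw [heq i (Finset.mem_range.mp hi) j]
      rw [e1] at hg2
      have e2 : g ^ 2 ≤ (s / 2) ^ 2 * γ j 0 ^ 2 := by
        have e3 : |g| ≤ s / 2 * |γ j 0| :=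
          hg1.trans (mul_le_mul_of_nonneg_right hRs (abs_nonneg _))
        have e4 := pow_le_pow_left₀ (abs_nonneg _) e3 2
        rwa [sq_abs, mul_pow, sq_abs] at e4
      have e3 : (γ j ℓ - g) ^ 2 ≤ (∑ i ∈ Finset.range ℓ, τ j i ^ 2) / δ ^ 2 := by
        rw [le_div_iff₀ (by positivity), mul_comm]; exact hg2
      have e4 : γ j ℓ ^ 2 ≤ 2 * g ^ 2 + 2 * (γ j ℓ - g) ^ 2 := by
        nlinarith [sq_nonneg (γ j ℓ - 2 * g)]
      have e5 : 2 * (∑ i ∈ Finset.range ℓ, τ j i ^ 2) / δ ^ 2 =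
          2 * ((∑ i ∈ Finset.range ℓ, τ j i ^ 2) / δ ^ 2) := by ring
      rw [e5]; linarith
    refine (Finset.sum_le_sum fun j _ => hj j).trans ?_
    rw [Finset.sum_add_distrib, ← Finset.mul_sum, hpar 0, ← Finset.sum_div, ← Finset.mul_sum]
    refine add_le_add le_rfl ?_
    refine div_le_div_of_nonneg_right ?_ (by positivity)
    linarith
  refine hmain.trans ?_
  have hε4 : ε ^ 2 ≤ (s * δ ^ 2 / 4) ^ 2 := pow_le_pow_left₀ hε0 hε2 2
  have hfin : 2 * (ε ^ 2 * N) / δ ^ 2 ≤ s ^ 2 / 2 * F0 := by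
    rw [div_le_iff₀ (by positivity)]
    have h5 := mul_le_mul_of_nonneg_right hε4 hNn
    have h6 : (s * δ ^ 2 / 4) ^ 2 * N = s ^ 2 * δ ^ 2 / 16 * (δ ^ 2 * N) := by ring
    have h7 : s ^ 2 * δ ^ 2 / 16 * (δ ^ 2 * N) ≤ s ^ 2 * δ ^ 2 / 16 * (4 * F0) :=
      mul_le_mul_of_nonneg_left hN2 (by positivity)
    have h8 : s ^ 2 / 2 * F0 * δ ^ 2 = 2 * (s ^ 2 * δ ^ 2 / 16 * (4 * F0)) := by ring
    rw [h8]; linarith
  have : 2 * (s / 2) ^ 2 * F0 = s ^ 2 / 2 * F0 := by ring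
  linarith

/-! ### the constants -/

theorem numc (M C0 ρ : ℝ) (hM : 1 ≤ M) (hC0 : 0 < C0) (hρ0 : 0 < ρ) (hρ1 : ρ < 1) :
    ∃ C : ℝ, 1 ≤ C ∧ ∀ n s : ℝ, 1 ≤ n → 0 < s → s ≤ 1 → ∀ ℓ : ℕ,
      C * (Real.log n + Real.log (1 / s) + 1) ≤ ℓ →
      ∃ R : ℝ, 0 < R ∧ 1 ≤ ℓ ∧ n * (2 * M) * (C0 * R ^ 2 * ρ ^ ℓ) ≤ s / 2 ∧
        256 * (ℓ : ℝ) ^ 2 * n ^ 2 / s ^ 3 ≤ R ∧
        Real.exp (-(C * ℓ)) ≤ s ^ 3 / (64 * (ℓ : ℝ) ^ 2 * n ^ 2) := by
  set Λ : ℝ := -Real.log ρ with hΛ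
  have hΛ0 : 0 < Λ := by
    rw [hΛ]; have := Real.log_neg hρ0 hρ1; linarith
  have hρe : ρ = Real.exp (-Λ) := by rw [hΛ, neg_neg, Real.exp_log hρ0]
  set a : ℝ := |Real.log (4 * M * C0)| with ha
  set b : ℝ := |Real.log (32768 / Λ ^ 2)| with hb
  have ha0 : 0 ≤ a := abs_nonneg _
  have hb0 : 0 ≤ b := abs_nonneg _
  have t1 : 0 ≤ Λ / 4 := by positivity
  have t2 : 0 ≤ 2 / Λ * (1 + a) := by positivity
  have t3 : 0 ≤ 8 / Λ * (3 + b) := by positivity
  refine ⟨1 + Λ / 4 + 2 / Λ * (1 + a) + 8 / Λ * (3 + b), by linarith, ?_⟩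
  set C : ℝ := 1 + Λ / 4 + 2 / Λ * (1 + a) + 8 / Λ * (3 + b) with hC
  intro n s hn hs hs1 ℓ hℓ
  have hn0 : 0 < n := by linarith
  have hln : 0 ≤ Real.log n := Real.log_nonneg hn
  have hls : 0 ≤ Real.log (1 / s) := Real.log_nonneg ((one_le_div hs).mpr hs1)
  set L : ℝ := Real.log n + Real.log (1 / s) + 1 with hL
  have hL1 : 1 ≤ L := by linarith
  have hC1 : 1 ≤ C := by linarith
  have hℓ1 : (1 : ℝ) ≤ ℓ := by
    refine le_trans ?_ hℓ
    nlinarith
  have hℓ0 : (0 : ℝ) < ℓ := by linarith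
  have hns : n / s ≤ Real.exp L := by
    have : n / s = Real.exp (Real.log n + Real.log (1 / s)) := by
      rw [Real.exp_add, Real.exp_log hn0, Real.exp_log (by positivity)]; ring
    rw [this]; exact Real.exp_le_exp.mpr (by linarith)
  have hns3 : n ^ 2 / s ^ 3 ≤ Real.exp (3 * L) := by
    have : n ^ 2 / s ^ 3 = Real.exp (2 * Real.log n + 3 * Real.log (1 / s)) := by
      rw [Real.exp_add]
      have e1 : Real.exp (2 * Real.log n) = n ^ 2 := by
        rw [two_mul, Real.exp_add, Real.exp_log hn0]; ring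
      have e2 : Real.exp (3 * Real.log (1 / s)) = (1 / s) ^ 3 := by
        have : 3 * Real.log (1 / s) = Real.log (1 / s) + Real.log (1 / s) + Real.log (1 / s) := by
          ring
        rw [this, Real.exp_add, Real.exp_add, Real.exp_log (by positivity)]; ring
      rw [e1, e2]; field_simp
    rw [this]; exact Real.exp_le_exp.mpr (by linarith)
  have hA1 : a + L ≤ Λ * ℓ / 2 := by
    have h1 : 2 / Λ * (1 + a) * L ≤ ℓ := by
      refine le_trans ?_ hℓ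
      refine mul_le_mul_of_nonneg_right ?_ (by linarith)
      linarith
    have h2 : Λ / 2 * (2 / Λ * (1 + a) * L) = (1 + a) * L := by field_simp
    have h3 := mul_le_mul_of_nonneg_left h1 (by positivity : 0 ≤ Λ / 2)
    rw [h2] at h3
    nlinarith [mul_nonneg ha0 (by linarith : 0 ≤ L - 1)]
  have hA2 : b + 3 * L ≤ Λ * ℓ / 8 := by
    have h1 : 8 / Λ * (3 + b) * L ≤ ℓ := by
      refine le_trans ?_ hℓ
      refine mul_le_mul_of_nonneg_right ?_ (by linarith)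
      linarith
    have h2 : Λ / 8 * (8 / Λ * (3 + b) * L) = (3 + b) * L := by field_simp
    have h3 := mul_le_mul_of_nonneg_left h1 (by positivity : 0 ≤ Λ / 8)
    rw [h2] at h3
    nlinarith [mul_nonneg hb0 (by linarith : 0 ≤ L - 1)]
  have hexpa : 4 * M * C0 ≤ Real.exp a := by
    have h0 : 0 < 4 * M * C0 := by positivity
    calc 4 * M * C0 = Real.exp (Real.log (4 * M * C0)) := (Real.exp_log h0).symm
      _ ≤ _ := Real.exp_le_exp.mpr (le_abs_self _)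
  have hexpb : 32768 / Λ ^ 2 ≤ Real.exp b := by
    have h0 : 0 < 32768 / Λ ^ 2 := by positivity
    calc 32768 / Λ ^ 2 = Real.exp (Real.log (32768 / Λ ^ 2)) := (Real.exp_log h0).symm
      _ ≤ _ := Real.exp_le_exp.mpr (le_abs_self _)
  have hbig : 256 * (ℓ : ℝ) ^ 2 * n ^ 2 / s ^ 3 ≤ Real.exp (Λ * ℓ / 4) := by
    have h1 : (Λ * ℓ / 8) ^ 2 / 2 ≤ Real.exp (Λ * ℓ / 8) := by
      have h0 : 0 ≤ Λ * ℓ / 8 := by positivity
      have := Real.quadratic_le_exp_of_nonneg h0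
      linarith
    have h2 : (ℓ : ℝ) ^ 2 ≤ 128 / Λ ^ 2 * Real.exp (Λ * ℓ / 8) := by
      have e : (ℓ : ℝ) ^ 2 = 128 / Λ ^ 2 * ((Λ * ℓ / 8) ^ 2 / 2) := by field_simp; ring
      rw [e]
      exact mul_le_mul_of_nonneg_left h1 (by positivity)
    have h3 : 256 * (ℓ : ℝ) ^ 2 * n ^ 2 / s ^ 3 = 256 * (ℓ : ℝ) ^ 2 * (n ^ 2 / s ^ 3) := by ring
    rw [h3]
    calc 256 * (ℓ : ℝ) ^ 2 * (n ^ 2 / s ^ 3)
        ≤ 256 * (128 / Λ ^ 2 * Real.exp (Λ * ℓ / 8)) * Real.exp (3 * L) := by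
          refine mul_le_mul (mul_le_mul_of_nonneg_left h2 (by norm_num)) hns3 (by positivity)
            (by positivity)
      _ = 32768 / Λ ^ 2 * Real.exp (Λ * ℓ / 8) * Real.exp (3 * L) := by ring
      _ ≤ Real.exp b * Real.exp (Λ * ℓ / 8) * Real.exp (3 * L) := by
          refine mul_le_mul_of_nonneg_right (mul_le_mul_of_nonneg_right hexpb (Real.exp_pos _).le)
            (Real.exp_pos _).le
      _ = Real.exp (b + Λ * ℓ / 8 + 3 * L) := by rw [Real.exp_add, Real.exp_add]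
      _ ≤ Real.exp (Λ * ℓ / 4) := Real.exp_le_exp.mpr (by linarith)
  refine ⟨Real.exp (Λ * ℓ / 4), Real.exp_pos _, by exact_mod_cast hℓ1, ?_, hbig, ?_⟩
  · have e1 : Real.exp (Λ * ℓ / 4) ^ 2 * ρ ^ ℓ = Real.exp (-(Λ * ℓ / 2)) := by
      rw [hρe, ← Real.exp_nat_mul, ← Real.exp_nat_mul, ← Real.exp_add]
      congr 1
      push_cast; ring
    have e2 : n * (2 * M) * (C0 * Real.exp (Λ * ℓ / 4) ^ 2 * ρ ^ ℓ) =
        n * (2 * M) * C0 * Real.exp (-(Λ * ℓ / 2)) := by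
      rw [← e1]; ring
    rw [e2, Real.exp_neg, ← div_eq_mul_inv, div_le_iff₀ (Real.exp_pos _)]
    have h1 : 4 * M * C0 * (n / s) ≤ Real.exp (Λ * ℓ / 2) := by
      calc 4 * M * C0 * (n / s) ≤ Real.exp a * Real.exp L :=
            mul_le_mul hexpa hns (by positivity) (Real.exp_pos _).le
        _ = Real.exp (a + L) := (Real.exp_add _ _).symm
        _ ≤ _ := Real.exp_le_exp.mpr hA1
    have h2 := mul_le_mul_of_nonneg_left h1 (by positivity : 0 ≤ s / 2)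
    have h3 : s / 2 * (4 * M * C0 * (n / s)) = n * (2 * M) * C0 := by field_simp; ring
    rw [h3] at h2
    exact h2
  · have h1 : Real.exp (Λ * ℓ / 4) ≤ Real.exp (C * ℓ) := by
      refine Real.exp_le_exp.mpr ?_
      have : Λ / 4 * ℓ ≤ C * ℓ := mul_le_mul_of_nonneg_right (by linarith) hℓ0.le
      linarith
    have h2 : 64 * (ℓ : ℝ) ^ 2 * n ^ 2 / s ^ 3 ≤ Real.exp (C * ℓ) := by
      refine le_trans ?_ (hbig.trans h1)
      refine div_le_div_of_nonneg_right ?_ (by positivity)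
      have : 0 ≤ (ℓ : ℝ) ^ 2 * n ^ 2 := by positivity
      nlinarith
    rw [Real.exp_neg, inv_eq_one_div, div_le_div_iff₀ (Real.exp_pos _) (by positivity)]
    rw [div_le_iff₀ (by positivity)] at h2
    linarith

theorem bar (h1 : S_grow) (_h2 : S_chain) (h3 : S_weg) : S_bar := by
  intro p q M hpq hM
  obtain ⟨C0, ρ, hC0, hρ0, hρ1, hgrow⟩ := h1 p q (2 * M) hpq
  obtain ⟨C, hC1, hC⟩ := numc M C0 ρ hM hC0 hρ0 hρ1
  refine ⟨C, hC1, ?_⟩
  intro Y _ _ _ A hA hAM s hs hs1 ℓ hℓ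
  obtain ⟨μ, χ, k1, k2, k3⟩ := spec A hA
  have hM0 : 0 < M := by linarith
  have hμ : ∀ j, |μ j| ≤ M := by
    intro j
    have h := hAM (χ j)
    simp_rw [k1 j, mul_pow] at h
    rw [← Finset.mul_sum] at h
    have e : ∑ y, χ j y ^ 2 = 1 := by
      have := k2 j j
      rw [if_pos rfl] at this
      rw [← this]
      exact Finset.sum_congr rfl fun y _ => sq _
    rw [e, mul_one, mul_one] at h
    exact abs_le_of_sq_le_sq h hM0.le
  have hn : 1 ≤ (Fintype.card Y : ℝ) := by exact_mod_cast Fintype.card_pos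
  obtain ⟨R, hR0, hℓ1, hvol, hbig, hsmall⟩ := hC (Fintype.card Y) s hn hs hs1 ℓ hℓ
  set n : ℝ := (Fintype.card Y : ℝ) with hndef
  have hn0 : 0 < n := by linarith
  have hℓr : (1 : ℝ) ≤ ℓ := by exact_mod_cast hℓ1
  have hℓ0 : (0 : ℝ) < ℓ := by linarith
  obtain ⟨b, G, hG1, hG2, hG3⟩ := word_sel p q M C0 ρ hM0 hgrow μ hμ ℓ R hR0 (by positivity)
  set δ : ℝ := s / (4 * ℓ * n) with hδdef
  have hδ0 : 0 < δ := by positivity
  have hδ1 : δ ≤ 1 := by
    rw [hδdef, div_le_one (by positivity)]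
    nlinarith [mul_pos hℓ0 hn0, mul_le_mul hℓr hn (by norm_num) hℓ0.le]
  set w : ℕ → ℝ := fun i => if h : i < ℓ then (if b ⟨i, h⟩ then p else q) else 0 with hw
  have hwF : ∀ i : Fin ℓ, w i = if b i then p else q := by
    intro i; simp only [hw]; rw [dif_pos i.2]
  choose Bj hB1 hB2 hB3 using fun j : Y => low_of_weg h3 ℓ (fun i => w i + μ j) δ hδ0
  refine ⟨b, G ∪ ⋃ j, Bj j, hG1.union (MeasurableSet.iUnion hB1), ?_, ?_⟩
  · have e1 : volume G ≤ ENNReal.ofReal (s / 2) := hG2.trans (ENNReal.ofReal_le_ofReal hvol)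
    have e2 : volume (⋃ j, Bj j) ≤ ENNReal.ofReal (s / 2) := by
      refine (measure_iUnion_fintype_le _ _).trans ?_
      refine (Finset.sum_le_sum fun j _ => hB2 j).trans ?_
      rw [Finset.sum_const, Finset.card_univ, nsmul_eq_mul, ← ENNReal.ofReal_natCast,
        ← ENNReal.ofReal_mul (Nat.cast_nonneg _), ← hndef]
      refine ENNReal.ofReal_le_ofReal (le_of_eq ?_)
      rw [hδdef]; field_simp; ring
    refine (measure_union_le _ _).trans ((add_le_add e1 e2).trans ?_)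
    rw [← ENNReal.ofReal_add (by positivity) (by positivity)]
    exact ENNReal.ofReal_le_ofReal (le_of_eq (by ring))
  · intro E hE hEB W hW f hf hend
    rw [Set.mem_union, not_or] at hEB
    have hEj : ∀ j, E ∉ Bj j := fun j h => hEB.2 (Set.mem_iUnion.mpr ⟨j, h⟩)
    have hbig2 : 16 / (s * δ ^ 2) ≤ R := by
      refine le_trans (le_of_eq ?_) hbig
      rw [hδdef]; field_simp; ring
    have hRδ : 2 / δ ≤ R := by
      refine le_trans ?_ hbig2
      rw [div_le_div_iff₀ hδ0 (by positivity)]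
      have : s * δ ≤ 1 := by nlinarith
      nlinarith [mul_le_mul_of_nonneg_right this hδ0.le]
    refine bar_det A hA μ χ k1 k3 ℓ hℓ1 w E δ R (Real.exp (-(C * ℓ))) s hδ0 hδ1 hs
      (Real.exp_pos _).le hRδ ?_ ?_ ?_ (fun j => hB3 j E (hEj j)) (fun j => ?_) W ?_ f hf hend
    · rw [div_le_div_iff₀ (by positivity) (by norm_num)]
      rw [div_le_iff₀ (by positivity)] at hbig2
      linarith
    · refine hsmall.trans ?_
      have e : s ^ 3 / (64 * (ℓ : ℝ) ^ 2 * n ^ 2) = s * δ ^ 2 / 4 := by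
        rw [hδdef]; field_simp; ring
      rw [e]
      nlinarith [mul_le_mul hs1 hδ1 hδ0.le zero_le_one, mul_pos hs hδ0]
    · refine hsmall.trans (le_of_eq ?_)
      rw [hδdef]; field_simp; ring
    · have h := hG3 E hE hEB.1 j
      have e1 : (List.ofFn fun i : Fin ℓ => w i + μ j - E) =
          List.ofFn fun i : Fin ℓ => (if b i then p else q) - (E - μ j) := by
        congr 1
        funext i
        rw [hwF]; ring
      rw [e1, tprod_shift (E - μ j) (fun i : Fin ℓ => if b i then p else q)]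
      exact h
    · intro i hi y
      have := hW ⟨i, hi⟩ y
      rw [← hwF] at this
      exact this

end Pool.Agent.H140.AH
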