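import Mathlib
import Pool.Agent.Q234.AH.Stm

/-!
# PROB (helper140, job 134)
-/

set_option autoImplicit false

noncomputable section

namespace Pool.Agent.H140.AH

open MeasureTheory ProbabilityTheory Pool.Agent.Q234.AH

variable {X : Type} [DecidableEq X] (ν : Measure ℝ) [IsProbabilityMeasure ν]

/-- the event that the set `B` is on target -/
def ev (B : Finset X) (I : X → Set ℝ) : Set (X → ℝ) := Set.pi B I

omit [DecidableEq X] in
theorem ev_meas (B : Finset X) (I : X → Set ℝ) (hI : ∀ x, MeasurableSet (I x)) :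
    MeasurableSet (ev B I) :=
  MeasurableSet.pi B.countable_toSet fun x _ => hI x

/-- the same event read on a larger finite set of coordinates -/
def evr (S B : Finset X) (I : X → Set ℝ) : Set (S → ℝ) :=
  {x | ∀ y : S, y.1 ∈ B → x y ∈ I y.1}

omit [DecidableEq X] in
theorem evr_meas (S B : Finset X) (I : X → Set ℝ) (hI : ∀ x, MeasurableSet (I x)) :
    MeasurableSet (evr S B I) := by
  have : evr S B I = ⋂ (y : S), ⋂ (_ : y.1 ∈ B), (fun x : S → ℝ => x y) ⁻¹' (I y.1) := by
    ext x; simp [evr]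
  rw [this]
  exact MeasurableSet.iInter fun y => MeasurableSet.iInter fun _ => measurable_pi_apply y (hI y.1)

omit [DecidableEq X] in
theorem ev_eq (S B : Finset X) (I : X → Set ℝ) (hS : B ⊆ S) :
    ev B I = (fun (ω : X → ℝ) (y : S) => ω y.1) ⁻¹' (evr S B I) := by
  ext ω
  simp only [ev, evr, Set.mem_pi, Set.mem_preimage, Set.mem_ofPred_eq]
  constructor
  · intro h y hy; exact h y.1 hy
  · intro h y hy; exact h ⟨y, hS hy⟩ hy

omit [DecidableEq X] in
theorem ev_prob (B : Finset X) (I : X → Set ℝ) (hI : ∀ x, MeasurableSet (I x)) (p : ℝ)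
    (hp0 : 0 ≤ p) (hp1 : p ≤ 1) (hpI : ∀ x, ENNReal.ofReal p ≤ ν (I x)) (c : ℕ)
    (hc : B.card ≤ c) :
    (Measure.infinitePi fun _ : X => ν) (ev B I)ᶜ ≤ ENNReal.ofReal (1 - p ^ c) := by
  have h1 : (Measure.infinitePi fun _ : X => ν) (ev B I) = ∏ x ∈ B, ν (I x) :=
    Measure.infinitePi_pi _ (fun x _ => hI x)
  have h2 : ENNReal.ofReal (p ^ c) ≤ (Measure.infinitePi fun _ : X => ν) (ev B I) := by
    rw [h1]
    calc ENNReal.ofReal (p ^ c) ≤ ENNReal.ofReal (p ^ B.card) :=
          ENNReal.ofReal_le_ofReal (pow_le_pow_of_le_one hp0 hp1 hc)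
      _ = ∏ _x ∈ B, ENNReal.ofReal p := by
          rw [Finset.prod_const, ENNReal.ofReal_pow hp0]
      _ ≤ _ := Finset.prod_le_prod' fun x _ => hpI x
  rw [prob_compl_eq_one_sub (ev_meas B I hI), ENNReal.ofReal_sub _ (by positivity),
    ENNReal.ofReal_one]
  exact tsub_le_tsub_left h2 _

theorem none_prob {n : ℕ} (B : Fin n → Finset X) (I : Fin n → X → Set ℝ)
    (hI : ∀ j x, MeasurableSet (I j x)) (p : ℝ)
    (hp0 : 0 ≤ p) (hp1 : p ≤ 1) (hpI : ∀ j x, ENNReal.ofReal p ≤ ν (I j x)) (c : ℕ)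
    (hc : ∀ j, (B j).card ≤ c) (hB : ∀ i j, i ≠ j → Disjoint (B i) (B j))
    (J : Finset (Fin n)) :
    (Measure.infinitePi fun _ : X => ν) (⋂ j ∈ J, (ev (B j) (I j))ᶜ) ≤
      ENNReal.ofReal ((1 - p ^ c) ^ J.card) := by
  have hpc : 0 ≤ 1 - p ^ c := by
    have := pow_le_one₀ hp0 hp1 (n := c)
    linarith
  induction J using Finset.induction_on with
  | empty => simp
  | insert j J hj ih =>
    rw [Finset.set_biInter_insert]
    set S := J.biUnion B with hS
    have hdis : Disjoint (B j) S := by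
      rw [hS, Finset.disjoint_biUnion_right]
      intro i hi
      exact hB _ _ (by rintro rfl; exact hj hi)
    have h0 : iIndepFun (fun (i : X) (ω : X → ℝ) => ω i) (Measure.infinitePi fun _ : X => ν) :=
      iIndepFun_infinitePi (P := fun _ : X => ν) (X := fun _ (x : ℝ) => x)
        (fun _ => measurable_id)
    have h1 := h0.indepFun_finset (B j) S hdis (fun i => measurable_pi_apply i)
    have e1 : (ev (B j) (I j))ᶜ = (fun (ω : X → ℝ) (y : B j) => ω y.1) ⁻¹'
        (evr (B j) (B j) (I j))ᶜ := by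
      rw [Set.preimage_compl, ← ev_eq _ _ _ (Finset.Subset.refl _)]
    have e2 : (⋂ i ∈ J, (ev (B i) (I i))ᶜ) = (fun (ω : X → ℝ) (y : S) => ω y.1) ⁻¹'
        (⋂ i ∈ J, (evr S (B i) (I i))ᶜ) := by
      rw [Set.preimage_iInter₂]
      refine Set.iInter₂_congr fun i hi => ?_
      rw [Set.preimage_compl, ← ev_eq _ _ _ (Finset.subset_biUnion_of_mem B hi)]
    have h2 : (Measure.infinitePi fun _ : X => ν) ((ev (B j) (I j))ᶜ ∩
        ⋂ i ∈ J, (ev (B i) (I i))ᶜ) = (Measure.infinitePi fun _ : X => ν) (ev (B j) (I j))ᶜ *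
        (Measure.infinitePi fun _ : X => ν) (⋂ i ∈ J, (ev (B i) (I i))ᶜ) := by
      rw [e1, e2]
      refine h1.measure_inter_preimage_eq_mul _ _ (evr_meas _ _ _ (hI j)).compl ?_
      exact Finset.measurableSet_biInter J fun i _ => (evr_meas _ _ _ (hI i)).compl
    rw [h2, Finset.card_insert_of_notMem hj, pow_succ', ENNReal.ofReal_mul hpc]
    exact mul_le_mul' (ev_prob ν _ _ (hI j) p hp0 hp1 (hpI j) c (hc j)) ih

theorem prob : S_prob := by
  intro X _ _ ν _ n c π B I hπ hI hπI hc hB hsum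
  have hex : ∀ k, (Measure.infinitePi fun _ : X => ν) (⋂ j, (ev (B k j) (I k j))ᶜ) ≤
      ENNReal.ofReal (Real.exp (-((n k : ℝ) * π k ^ c k))) := by
    intro k
    rcases Nat.eq_zero_or_pos (n k) with hn | hn
    · have e : Real.exp (-((n k : ℝ) * π k ^ c k)) = 1 := by
        have : (n k : ℝ) = 0 := by exact_mod_cast hn
        rw [this, zero_mul, neg_zero, Real.exp_zero]
      rw [e, ENNReal.ofReal_one]
      exact prob_le_one
    · have j0 : Fin (n k) := ⟨0, hn⟩
      rcases isEmpty_or_nonempty X with hX | ⟨⟨x0⟩⟩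
      · have : (⋂ j, (ev (B k j) (I k j))ᶜ) = ∅ := by
          rw [Set.eq_empty_iff_forall_notMem]
          intro ω hω
          have h1 := Set.mem_iInter.mp hω j0
          exact h1 fun x _ => (hX.false x).elim
        rw [this, measure_empty]
        exact zero_le
      · have hp1 : π k ≤ 1 := by
          have h1 : ENNReal.ofReal (π k) ≤ 1 := (hπI k j0 x0).trans prob_le_one
          rw [← ENNReal.ofReal_one] at h1
          exact (ENNReal.ofReal_le_ofReal_iff zero_le_one).mp h1
        have h2 := none_prob ν (B k) (I k) (hI k) (π k) (hπ k) hp1 (hπI k) (c k) (hc k) (hB k)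
          Finset.univ
        have h3 : (⋂ j ∈ (Finset.univ : Finset (Fin (n k))), (ev (B k j) (I k j))ᶜ) =
            ⋂ j, (ev (B k j) (I k j))ᶜ := by simp
        rw [h3] at h2
        refine h2.trans (ENNReal.ofReal_le_ofReal ?_)
        rw [Finset.card_univ, Fintype.card_fin]
        have hpc : 0 ≤ 1 - π k ^ c k := by
          have := pow_le_one₀ (hπ k) hp1 (n := c k)
          linarith
        calc (1 - π k ^ c k) ^ n k ≤ (Real.exp (-(π k ^ c k))) ^ n k := by
              refine pow_le_pow_left₀ hpc ?_ _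
              have := Real.add_one_le_exp (-(π k ^ c k))
              linarith
          _ = Real.exp (-((n k : ℝ) * π k ^ c k)) := by
              rw [← Real.exp_nat_mul]; congr 1; ring
  have hfin : ∑' k, (Measure.infinitePi fun _ : X => ν) (⋂ j, (ev (B k j) (I k j))ᶜ) ≠ ⊤ := by
    refine ne_top_of_le_ne_top ?_ (ENNReal.tsum_le_tsum hex)
    exact hsum.tsum_ofReal_ne_top
  filter_upwards [ae_eventually_notMem hfin] with ω hω
  filter_upwards [hω] with k hk
  rw [Set.mem_iInter, not_forall] at hk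
  obtain ⟨j, hj⟩ := hk
  rw [Set.mem_compl_iff, not_not] at hj
  exact ⟨j, fun x hx => hj x hx⟩

end Pool.Agent.H140.AH
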