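import Mathlib
import Pool.Agent.Q234.AH.Stm
import Pool.Agent.H140.AH.AHSpec

/-!
# WEG and WEAK (helper140, job 132)
-/

set_option autoImplicit false

noncomputable section

namespace Pool.Agent.H140.AH

open MeasureTheory Pool.Agent.Q234.AH

/-- the union of the balls about the eigenvalues -/
def near {ι : Type} [Fintype ι] (lam : ι → ℝ) (δ : ℝ) : Set ℝ := ⋃ i, Metric.ball (lam i) δ

theorem near_meas {ι : Type} [Fintype ι] (lam : ι → ℝ) (δ : ℝ) : MeasurableSet (near lam δ) :=
  (isOpen_iUnion fun _ => Metric.isOpen_ball).measurableSet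

theorem near_vol {ι : Type} [Fintype ι] (lam : ι → ℝ) (δ : ℝ) (_hδ : 0 < δ) :
    volume (near lam δ) ≤ ENNReal.ofReal (2 * δ * Fintype.card ι) := by
  unfold near
  refine (measure_iUnion_fintype_le _ _).trans ?_
  simp only [Real.volume_ball]
  rw [Finset.sum_const, Finset.card_univ, nsmul_eq_mul, mul_comm (2 * δ),
    ENNReal.ofReal_mul (Nat.cast_nonneg _), ENNReal.ofReal_natCast]

theorem near_out {ι : Type} [Fintype ι] (lam : ι → ℝ) (δ : ℝ) (E : ℝ) (hE : E ∉ near lam δ)
    (i : ι) : δ ≤ |E - lam i| := by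
  by_contra h
  push Not at h
  exact hE (Set.mem_iUnion.mpr ⟨i, by rw [Metric.mem_ball, Real.dist_eq]; exact h⟩)

theorem weg : S_weg := by
  intro ι _ _ A hA δ hδ
  obtain ⟨lam, u, h1, -, h3⟩ := spec A hA
  exact ⟨near lam δ, near_meas lam δ, near_vol lam δ hδ, fun E hE f =>
    below A hA lam u h1 h3 δ E hδ.le (near_out lam δ E hE) f⟩

/-- positive half -/
theorem kint_pos (η T : ℝ) (hη : 0 < η) (hT : η ≤ T) :
    ∫⁻ t in Set.Icc η T, ENNReal.ofReal (1 / |t|) = ENNReal.ofReal (Real.log (T / η)) := by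
  have h0 : ∫⁻ t in Set.Icc η T, ENNReal.ofReal (1 / |t|) =
      ∫⁻ t in Set.Icc η T, ENNReal.ofReal (1 / t) := by
    refine setLIntegral_congr_fun measurableSet_Icc fun t ht => ?_
    simp only [abs_of_pos (hη.trans_le ht.1)]
  rw [h0]
  have h1 : IntegrableOn (fun t : ℝ => 1 / t) (Set.Icc η T) := by
    apply ContinuousOn.integrableOn_Icc
    exact continuousOn_const.div continuousOn_id (fun x hx => (hη.trans_le hx.1).ne')
  rw [← ofReal_integral_eq_lintegral_ofReal h1]
  · rw [integral_Icc_eq_integral_Ioc, ← intervalIntegral.integral_of_le hT,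
      integral_one_div_of_pos hη (hη.trans_le hT)]
  · filter_upwards [ae_restrict_mem measurableSet_Icc] with t ht
    exact div_nonneg zero_le_one (hη.trans_le ht.1).le

/-- negative half -/
theorem kint_neg (η T : ℝ) (hη : 0 < η) (hT : η ≤ T) :
    ∫⁻ t in Set.Icc (-T) (-η), ENNReal.ofReal (1 / |t|) = ENNReal.ofReal (Real.log (T / η)) := by
  rw [← kint_pos η T hη hT]
  rw [← lintegral_indicator measurableSet_Icc, ← lintegral_indicator measurableSet_Icc,
    ← lintegral_neg_eq_self]
  refine lintegral_congr fun t => ?_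
  simp only [Set.indicator, Set.mem_Icc, abs_neg]
  refine if_congr ?_ rfl rfl
  constructor
  · rintro ⟨h1, h2⟩; constructor <;> linarith
  · rintro ⟨h1, h2⟩; constructor <;> linarith

/-- the kernel bound -/
def kk (η T M lam E : ℝ) : ENNReal :=
  (Set.Icc η T).indicator (fun t => ENNReal.ofReal (1 / |t|)) (E - lam) +
  (Set.Icc (-T) (-η)).indicator (fun t => ENNReal.ofReal (1 / |t|)) (E - lam) +
  (Set.Icc (-M) M).indicator (fun _ => ENNReal.ofReal (1 / M)) E

theorem inv_meas (a b : ℝ) :
    Measurable ((Set.Icc a b).indicator (fun t : ℝ => ENNReal.ofReal (1 / |t|))) := by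
  refine Measurable.indicator ?_ measurableSet_Icc
  exact (measurable_const.div measurable_abs).ennreal_ofReal

theorem kk_meas (η T M lam : ℝ) : Measurable (kk η T M lam) := by
  unfold kk
  refine Measurable.add (Measurable.add ?_ ?_) ?_
  · exact (inv_meas η T).comp (measurable_id.sub_const lam)
  · exact (inv_meas (-T) (-η)).comp (measurable_id.sub_const lam)
  · exact measurable_const.indicator measurableSet_Icc

theorem kk_int (η T M lam : ℝ) (hη : 0 < η) (hT : η ≤ T) (hM : 0 < M) :
    ∫⁻ E, kk η T M lam E ≤ ENNReal.ofReal (2 * Real.log (T / η) + 2) := by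
  unfold kk
  rw [lintegral_add_left, lintegral_add_left]
  · rw [lintegral_sub_right_eq_self
        (fun t => (Set.Icc η T).indicator (fun t => ENNReal.ofReal (1 / |t|)) t) lam,
      lintegral_sub_right_eq_self
        (fun t => (Set.Icc (-T) (-η)).indicator (fun t => ENNReal.ofReal (1 / |t|)) t) lam,
      lintegral_indicator measurableSet_Icc, lintegral_indicator measurableSet_Icc,
      lintegral_indicator measurableSet_Icc, kint_pos η T hη hT, kint_neg η T hη hT]
    rw [lintegral_const, Measure.restrict_apply MeasurableSet.univ, Set.univ_inter,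
      Real.volume_Icc, ← ENNReal.ofReal_mul (by positivity)]
    have hlog : 0 ≤ Real.log (T / η) := Real.log_nonneg ((one_le_div hη).mpr hT)
    rw [← ENNReal.ofReal_add hlog hlog, ← ENNReal.ofReal_add (by linarith)]
    · apply ENNReal.ofReal_le_ofReal
      have : 1 / M * (M - -M) = 2 := by field_simp; ring
      rw [this]; linarith
    · have : 1 / M * (M - -M) = 2 := by field_simp; ring
      rw [this]; norm_num
  · exact (inv_meas η T).comp (measurable_id.sub_const lam)
  · exact ((inv_meas η T).comp (measurable_id.sub_const lam)).add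
      ((inv_meas (-T) (-η)).comp (measurable_id.sub_const lam))

theorem kk_ge (η M lam E : ℝ) (hM : 1 ≤ M) (h1 : η ≤ |E - lam|) (h2 : |E| ≤ M) :
    ENNReal.ofReal (1 / |E - lam|) ≤ kk η (3 * M) M lam E := by
  unfold kk
  by_cases h : |E - lam| ≤ 3 * M
  · rcases le_total 0 (E - lam) with h0 | h0
    · rw [abs_of_nonneg h0] at h h1
      have h5 : (Set.Icc η (3 * M)).indicator (fun t => ENNReal.ofReal (1 / |t|)) (E - lam) =
          ENNReal.ofReal (1 / |E - lam|) := Set.indicator_of_mem (Set.mem_Icc.mpr ⟨h1, h⟩) _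
      rw [h5, add_assoc]
      exact le_self_add
    · rw [abs_of_nonpos h0] at h h1
      have h5 : (Set.Icc (-(3 * M)) (-η)).indicator (fun t => ENNReal.ofReal (1 / |t|)) (E - lam) =
          ENNReal.ofReal (1 / |E - lam|) :=
        Set.indicator_of_mem (Set.mem_Icc.mpr ⟨by linarith, by linarith⟩) _
      rw [h5, add_assoc]
      exact le_add_left le_self_add
  · push Not at h
    have h5 : (Set.Icc (-M) M).indicator (fun _ => ENNReal.ofReal (1 / M)) E =
          ENNReal.ofReal (1 / M) := Set.indicator_of_mem (Set.mem_Icc.mpr (abs_le.mp h2)) _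
    rw [h5]
    refine le_trans ?_ le_add_self
    apply ENNReal.ofReal_le_ofReal
    exact one_div_le_one_div_of_le (by linarith) (by linarith)

/-- main construction for one target -/
theorem weak_one {ι : Type} [Fintype ι] (lam : ι → ℝ) (a : ι → ℝ) (ha : ∀ i, 0 ≤ a i)
    (hs : ∑ i, a i ≤ 1) (η M K : ℝ) (hη : 0 < η) (hM : 1 ≤ M) (hηM : η ≤ 3 * M) (hK : 0 < K) :
    ∃ B : Set ℝ, MeasurableSet B ∧
      volume B ≤ ENNReal.ofReal ((2 * Real.log (3 * M / η) + 2) / K) ∧
      ∀ E, |E| ≤ M → E ∉ B → (∀ i, η ≤ |E - lam i|) → ∑ i, a i / |E - lam i| < K := by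
  let F : ℝ → ENNReal := fun E => ∑ i, ENNReal.ofReal (a i) * kk η (3 * M) M (lam i) E
  have hF : Measurable F := by
    refine Finset.measurable_sum _ fun i _ => ?_
    exact (kk_meas η (3 * M) M (lam i)).const_mul _
  have hlog : 0 ≤ Real.log (3 * M / η) := Real.log_nonneg ((one_le_div hη).mpr hηM)
  have hFi : ∫⁻ E, F E ≤ ENNReal.ofReal (2 * Real.log (3 * M / η) + 2) := by
    have e1 : ∫⁻ E, F E = ∑ i, ENNReal.ofReal (a i) * ∫⁻ E, kk η (3 * M) M (lam i) E := by
      show ∫⁻ E, ∑ i, ENNReal.ofReal (a i) * kk η (3 * M) M (lam i) E = _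
      rw [lintegral_finsetSum _ fun i _ => (kk_meas η (3 * M) M (lam i)).const_mul _]
      exact Finset.sum_congr rfl fun i _ => lintegral_const_mul _ (kk_meas _ _ _ _)
    rw [e1]
    calc ∑ i, ENNReal.ofReal (a i) * ∫⁻ E, kk η (3 * M) M (lam i) E
        ≤ ∑ i, ENNReal.ofReal (a i) * ENNReal.ofReal (2 * Real.log (3 * M / η) + 2) :=
          Finset.sum_le_sum fun i _ => mul_le_mul_right (kk_int η (3 * M) M (lam i) hη hηM
            (by linarith)) _
      _ = ENNReal.ofReal (∑ i, a i) * ENNReal.ofReal (2 * Real.log (3 * M / η) + 2) := by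
          rw [← Finset.sum_mul, ENNReal.ofReal_sum_of_nonneg fun i _ => ha i]
      _ ≤ 1 * ENNReal.ofReal (2 * Real.log (3 * M / η) + 2) := by
          refine mul_le_mul_left ?_ _
          rw [← ENNReal.ofReal_one]
          exact ENNReal.ofReal_le_ofReal hs
      _ = _ := one_mul _
  refine ⟨{E | ENNReal.ofReal K ≤ F E}, measurableSet_le measurable_const hF, ?_, ?_⟩
  · refine (meas_ge_le_lintegral_div hF.aemeasurable ?_ ENNReal.ofReal_ne_top).trans ?_
    · rw [ENNReal.ofReal_ne_zero_iff]; exact hK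
    · rw [ENNReal.ofReal_div_of_pos hK]
      exact ENNReal.div_le_div_right hFi _
  · intro E hE hB hi
    rw [Set.mem_ofPred_eq, not_le] at hB
    have h1 : ENNReal.ofReal (∑ i, a i / |E - lam i|) ≤ F E := by
      rw [ENNReal.ofReal_sum_of_nonneg fun i _ => div_nonneg (ha i) (abs_nonneg _)]
      refine Finset.sum_le_sum fun i _ => ?_
      rw [div_eq_mul_one_div, ENNReal.ofReal_mul (ha i)]
      exact mul_le_mul_right (kk_ge η M (lam i) E hM (hi i) hE) _
    have h2 := h1.trans_lt hB
    exact (ENNReal.ofReal_lt_ofReal_iff hK).mp h2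

theorem weak : S_weak := by
  intro M hM
  have hlM : 0 ≤ Real.log (12 * M) := Real.log_nonneg (by linarith)
  refine ⟨4 * (Real.log (12 * M) + 1), by linarith, ?_⟩
  intro ι _ _ A hA x₀ Z s hs hs1 hZ
  obtain ⟨lam, u, h1, -, h3⟩ := spec A hA
  have hn : 1 ≤ (Fintype.card ι : ℝ) := by
    have : 0 < Fintype.card ι := Fintype.card_pos_iff.mpr ⟨x₀⟩
    exact_mod_cast this
  have hZ1 : 1 ≤ (Z.card : ℝ) := by exact_mod_cast hZ.card_pos
  have hM0 : 0 < M := by linarith
  set n : ℝ := (Fintype.card ι : ℝ) with hndef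
  set η : ℝ := s / (4 * n) with hηdef
  have hη : 0 < η := by positivity
  have hηM : η ≤ 3 * M := by
    rw [hηdef, div_le_iff₀ (by positivity)]
    nlinarith
  have hlog : Real.log (3 * M / η) = Real.log (12 * M) + Real.log n + Real.log (1 / s) := by
    have : 3 * M / η = (12 * M) * n * (1 / s) := by
      rw [hηdef]; field_simp; ring
    rw [this, Real.log_mul (by positivity) (by positivity), Real.log_mul (by positivity)
      (by positivity)]
  have hln : 0 ≤ Real.log n := Real.log_nonneg hn
  have hls : 0 ≤ Real.log (1 / s) := Real.log_nonneg ((one_le_div hs).mpr hs1)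
  set L : ℝ := Real.log n + Real.log (1 / s) + 1 with hL
  set K : ℝ := 4 * (Real.log (12 * M) + 1) * Z.card * L / s with hK
  have hK0 : 0 < K := by rw [hK]; positivity
  have hone : ∀ z : ι, ∃ B : Set ℝ, MeasurableSet B ∧
      volume B ≤ ENNReal.ofReal (s / (2 * Z.card)) ∧
      ∀ E, |E| ≤ M → E ∉ B → (∀ i, η ≤ |E - lam i|) →
        ∑ i, |u i x₀ * u i z| / |E - lam i| < K := by
    intro z
    obtain ⟨B, hB1, hB2, hB3⟩ := weak_one lam (fun i => |u i x₀ * u i z|)
      (fun i => abs_nonneg _) (by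
        calc ∑ i, |u i x₀ * u i z| ≤ ∑ i, (u i x₀ * u i x₀ + u i z * u i z) / 2 := by
              refine Finset.sum_le_sum fun i _ => ?_
              rw [abs_le]
              constructor <;> nlinarith [sq_nonneg (u i x₀ + u i z), sq_nonneg (u i x₀ - u i z)]
          _ = (∑ i, u i x₀ * u i x₀ + ∑ i, u i z * u i z) / 2 := by
              rw [← Finset.sum_add_distrib, Finset.sum_div]
          _ = 1 := by rw [h3, h3]; norm_num
          _ ≤ 1 := le_rfl) η M K hη hM hηM hK0
    refine ⟨B, hB1, hB2.trans (ENNReal.ofReal_le_ofReal ?_), hB3⟩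
    rw [hlog, div_le_div_iff₀ hK0 (by positivity), hK, hL]
    have e : s * (4 * (Real.log (12 * M) + 1) * ↑Z.card *
        (Real.log n + Real.log (1 / s) + 1) / s) =
        4 * (Real.log (12 * M) + 1) * ↑Z.card * (Real.log n + Real.log (1 / s) + 1) := by
      field_simp
    rw [e]
    have e2 : Real.log (12 * M) + Real.log n + Real.log (1 / s) + 1 ≤
        (Real.log (12 * M) + 1) * (Real.log n + Real.log (1 / s) + 1) := by
      nlinarith [mul_nonneg hlM hln, mul_nonneg hlM hls]
    nlinarith [mul_le_mul_of_nonneg_left e2 (by positivity : (0:ℝ) ≤ 4 * Z.card)]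
  choose B hB1 hB2 hB3 using hone
  refine ⟨near lam η ∪ ⋃ z ∈ Z, B z, (near_meas lam η).union
    (Finset.measurableSet_biUnion Z fun z _ => hB1 z), ?_, ?_⟩
  · refine (measure_union_le _ _).trans ?_
    have e1 : volume (near lam η) ≤ ENNReal.ofReal (s / 2) := by
      refine (near_vol lam η hη).trans (ENNReal.ofReal_le_ofReal (le_of_eq ?_))
      rw [← hndef, hηdef]; field_simp; ring
    have e2 : volume (⋃ z ∈ Z, B z) ≤ ENNReal.ofReal (s / 2) := by
      refine (measure_biUnion_finset_le Z B).trans ?_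
      refine (Finset.sum_le_sum fun z _ => hB2 z).trans ?_
      rw [Finset.sum_const, nsmul_eq_mul, ← ENNReal.ofReal_natCast, ← ENNReal.ofReal_mul
        (Nat.cast_nonneg _)]
      refine ENNReal.ofReal_le_ofReal (le_of_eq ?_)
      field_simp
    refine (add_le_add e1 e2).trans ?_
    rw [← ENNReal.ofReal_add (by positivity) (by positivity)]
    exact ENNReal.ofReal_le_ofReal (le_of_eq (by ring))
  · intro E hE hEB
    rw [Set.mem_union, not_or] at hEB
    have hout := near_out lam η E hEB.1
    refine ⟨fun f => below A hA lam u h1 h3 η E hη.le hout f, ?_⟩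
    intro r hr z hz
    have hne : ∀ i, lam i ≠ E := by
      intro i h
      have := hout i
      rw [h, sub_self, abs_zero] at this
      linarith
    rw [resolv A hA lam u h1 h3 E hne x₀ r hr z]
    have hEz : E ∉ B z := fun h => hEB.2 (Set.mem_biUnion hz h)
    refine le_trans ?_ (hB3 z E hE hEz hout).le
    refine (Finset.abs_sum_le_sum_abs _ _).trans (Finset.sum_le_sum fun i _ => ?_)
    rw [abs_div, abs_sub_comm E]

end Pool.Agent.H140.AH
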